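import Mathlib

namespace Pool.Agent.Results.MP_d0f2af_nt.TwoPrimes

open ArithmeticFunction Finset

/-- sum of the positive divisors -/
def sig (n : ℕ) : ℕ := ∑ d ∈ n.divisors, d

/-- sum of the unitary divisors -/
def usig (n : ℕ) : ℕ := ∑ d ∈ n.divisors.filter (fun d => Nat.Coprime d (n / d)), d

def U : ArithmeticFunction ℕ := ⟨usig, by simp [usig]⟩

theorem usig_mul (m n : ℕ) (h : Nat.Coprime m n) : usig (m * n) = usig m * usig n := by
  unfold usig
  rw [Finset.sum_filter, Finset.sum_filter, Finset.sum_filter, Nat.divisors_mul, Finset.mul_def,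
    Finset.sum_image h.mul_injOn_divisors, Finset.sum_product, Finset.sum_mul_sum]
  refine Finset.sum_congr rfl fun a ha => Finset.sum_congr rfl fun b hb => ?_
  obtain ⟨c, rfl⟩ := Nat.dvd_of_mem_divisors ha
  obtain ⟨d, rfl⟩ := Nat.dvd_of_mem_divisors hb
  have ha0 : 0 < a := Nat.pos_of_mem_divisors ha
  have hb0 : 0 < b := Nat.pos_of_mem_divisors hb
  have e1 : a * c * (b * d) / (a * b) = c * d := by
    rw [show a * c * (b * d) = a * b * (c * d) by ring, Nat.mul_div_cancel_left _ (by positivity)]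
  rw [e1, Nat.mul_div_cancel_left _ ha0, Nat.mul_div_cancel_left _ hb0]
  have h1 : Nat.Coprime a d := Nat.Coprime.coprime_mul_left_right (Nat.Coprime.coprime_mul_right h)
  have h2 : Nat.Coprime b c := (Nat.Coprime.coprime_mul_right_right (Nat.Coprime.coprime_mul_left h)).symm
  have key : Nat.Coprime (a * b) (c * d) ↔ Nat.Coprime a c ∧ Nat.Coprime b d := by
    rw [Nat.coprime_mul_iff_left, Nat.coprime_mul_iff_right, Nat.coprime_mul_iff_right]
    tauto
  by_cases h3 : Nat.Coprime a c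
  · by_cases h4 : Nat.Coprime b d
    · rw [if_pos (key.2 ⟨h3, h4⟩), if_pos h3, if_pos h4]
    · rw [if_neg (fun hh => h4 (key.1 hh).2), if_neg h4, mul_zero]
  · rw [if_neg (fun hh => h3 (key.1 hh).1), if_neg h3, zero_mul]

theorem usig_one : usig 1 = 1 := by decide

theorem sig_one : sig 1 = 1 := by decide

theorem U_mult : U.IsMultiplicative := ⟨usig_one, fun {m n} h => usig_mul m n h⟩

theorem usig_pow (p e : ℕ) (hp : p.Prime) : usig (p ^ (e + 1)) = 1 + p ^ (e + 1) := by
  unfold usig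
  rw [Finset.sum_filter, Nat.sum_divisors_prime_pow hp, Finset.sum_range_succ, Finset.sum_range_succ']
  have h0 : ∑ j ∈ range e, (if Nat.Coprime (p ^ (j + 1)) (p ^ (e + 1) / p ^ (j + 1)) then p ^ (j + 1) else 0) = 0 := by
    refine Finset.sum_eq_zero fun j hj => if_neg ?_
    have hj' := Finset.mem_range.1 hj
    rw [Nat.pow_div (by omega) hp.pos, Nat.coprime_pow_left_iff (by omega),
      Nat.coprime_pow_right_iff (by omega), Nat.coprime_self]
    exact hp.ne_one
  rw [h0, Nat.div_self (pow_pos hp.pos _)]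
  simp

theorem sig_eq (n : ℕ) : sigma 1 n = sig n := by simp [sig, sigma_one_apply]

theorem sig_pow (p e : ℕ) (hp : p.Prime) : sig (p ^ e) = ∑ j ∈ range (e + 1), p ^ j := by
  rw [sig, Nat.sum_divisors_prime_pow hp]

theorem geo (p e : ℕ) : ((p : ℤ) - 1) * ((∑ j ∈ range e, p ^ j : ℕ) : ℤ) = (p : ℤ) ^ e - 1 := by
  push_cast
  rw [mul_comm, geom_sum_mul]

theorem par (p : ℕ) (hp : p % 2 = 1) (e : ℕ) : (∑ j ∈ range e, p ^ j) % 2 = e % 2 := by
  have hpw : ∀ j, p ^ j % 2 = 1 := fun j => by rw [Nat.pow_mod, hp]; simp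
  induction e with
  | zero => simp
  | succ e ih => rw [Finset.sum_range_succ]; have := hpw e; omega

theorem split (p r : ℕ) : ∑ j ∈ range (2 * r), p ^ j = (p + 1) * ∑ j ∈ range r, (p ^ 2) ^ j := by
  induction r with
  | zero => simp
  | succ r ih =>
    rw [show 2 * (r + 1) = 2 * r + 1 + 1 by ring, Finset.sum_range_succ, Finset.sum_range_succ, ih,
      Finset.sum_range_succ]
    ring

theorem loc (p e : ℕ) (hp : p.Prime) (h : p ≠ 2 → e % 4 ≠ 3) :
    ∃ u, u % 2 = 1 ∧ sig (p ^ e) ∣ u * usig (p ^ e) := by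
  rcases hp.eq_two_or_odd with rfl | ho
  · refine ⟨sig (2 ^ e), ?_, Dvd.intro _ rfl⟩
    rw [sig_pow _ _ hp, Finset.sum_range_succ']
    have : 2 ∣ ∑ j ∈ range e, 2 ^ (j + 1) := Finset.dvd_sum fun j _ => Dvd.intro_left _ (pow_succ 2 j).symm
    omega
  · have h3 := h (by rintro rfl; omega)
    rcases Nat.even_or_odd' e with ⟨r, rfl | rfl⟩
    · refine ⟨sig (p ^ (2 * r)), ?_, Dvd.intro _ rfl⟩
      rw [sig_pow _ _ hp, par p ho]; omega
    · refine ⟨∑ j ∈ range (r + 1), (p ^ 2) ^ j, ?_, ?_⟩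
      · rw [par _ (by rw [Nat.pow_mod, ho])]; omega
      · rw [sig_pow _ _ hp, usig_pow _ _ hp, show 2 * r + 1 + 1 = 2 * (r + 1) by ring, split, mul_comm]
        refine Nat.mul_dvd_mul_left _ ?_
        have := Odd.nat_add_dvd_pow_add_pow p 1 (n := 2 * r + 1) ⟨r, rfl⟩
        rwa [one_pow, add_comm (p ^ _) 1] at this

theorem part1 (n : ℕ) (hn : n ≠ 0) (h : sig n = 2 * usig n) :
    ∃ p, p.Prime ∧ p ≠ 2 ∧ n.factorization p % 4 = 3 := by
  by_contra hc
  push Not at hc
  have hl : ∀ p : ℕ, ∃ u, u % 2 = 1 ∧ (p.Prime → sig (p ^ n.factorization p) ∣ u * usig (p ^ n.factorization p)) := by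
    intro p
    by_cases hp : p.Prime
    · obtain ⟨u, h1, h2⟩ := loc p _ hp (hc p hp)
      exact ⟨u, h1, fun _ => h2⟩
    · exact ⟨1, rfl, fun h => absurd h hp⟩
  choose u hu1 hu2 using hl
  have h1 := isMultiplicative_sigma.multiplicative_factorization (sigma 1) hn
  have h2 := U_mult.multiplicative_factorization U hn
  rw [Finsupp.prod, Nat.support_factorization] at h1 h2
  have h3 : sigma 1 n ∣ (∏ p ∈ n.primeFactors, u p) * U n := by
    rw [h1, h2, ← Finset.prod_mul_distrib]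
    refine Finset.prod_dvd_prod_of_dvd _ _ fun p hp => ?_
    rw [sig_eq]
    exact hu2 p (Nat.prime_of_mem_primeFactors hp)
  rw [sig_eq, h] at h3
  have hpos : 0 < usig n := by
    have : 0 < sig n := Finset.sum_pos (fun d hd => Nat.pos_of_mem_divisors hd) ⟨1, by simp [hn]⟩
    omega
  have h4 : 2 ∣ ∏ p ∈ n.primeFactors, u p := Nat.dvd_of_mul_dvd_mul_right hpos h3
  obtain ⟨p, -, hp⟩ := (Nat.prime_two.prime.dvd_finsetProd_iff _).1 h4
  have := hu1 p
  omega

theorem bnd (p e c : ℕ) (hp : p.Prime) (hc : c + 1 ≤ p) :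
    c * sig (p ^ e) < (c + 1) * usig (p ^ e) := by
  cases e with
  | zero => rw [pow_zero, sig_one, usig_one]; omega
  | succ e =>
    rw [usig_pow _ _ hp, sig_pow _ _ hp, Finset.sum_range_succ]
    have h := geo p (e + 1)
    generalize (∑ j ∈ range (e + 1), p ^ j) = S at *
    have h2 : (c : ℤ) * S ≤ ((p : ℤ) - 1) * S := by
      apply mul_le_mul_of_nonneg_right _ (by positivity); omega
    zify
    nlinarith

theorem part2 (p q a b : ℕ) (hp : p.Prime) (hq : q.Prime) (hpq : p < q)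
    (h : sig (p ^ a * q ^ b) = 2 * usig (p ^ a * q ^ b)) : p ^ a * q ^ b = 108 := by
  have hco : Nat.Coprime (p ^ a) (q ^ b) := Nat.Coprime.pow _ _ ((Nat.coprime_primes hp hq).2 hpq.ne)
  rw [usig_mul _ _ hco, ← sig_eq, isMultiplicative_sigma.map_mul_of_coprime hco, sig_eq, sig_eq] at h
  rcases hp.eq_two_or_odd with rfl | ho
  · have hq2 := hq.two_le
    rcases a with _ | a
    · have := bnd q b 1 hq (by omega)
      rw [pow_zero, sig_one, usig_one] at h
      omega
    rcases b with _ | b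
    · have := bnd 2 (a + 1) 1 hp le_rfl
      rw [pow_zero, sig_one, usig_one] at h
      omega
    rw [usig_pow _ _ hp, usig_pow _ _ hq, sig_pow _ _ hp, sig_pow _ _ hq,
      Finset.sum_range_succ (fun j => q ^ j), Finset.sum_range_succ' (fun j => q ^ j)] at h
    have g1 := geo 2 (a + 1 + 1)
    have g2 := geo q b
    have g3 : ∑ j ∈ range b, q ^ (j + 1) = q * ∑ j ∈ range b, q ^ j := by
      rw [Finset.mul_sum]; exact Finset.sum_congr rfl fun j _ => by ring
    rw [g3] at h
    generalize (∑ j ∈ range (a + 1 + 1), 2 ^ j) = M at *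
    generalize (∑ j ∈ range b, q ^ j) = t at *
    have k1 : (M : ℤ) * q * t = 3 * (1 + (q : ℤ) ^ (b + 1)) := by
      zify at h
      push_cast at g1
      linear_combination h - (1 + (q : ℤ) ^ (b + 1)) * g1
    have k2 : q ∣ 3 := by
      have : (q : ℤ) ∣ 3 := ⟨M * t - 3 * (q : ℤ) ^ b, by linear_combination -k1⟩
      exact_mod_cast this
    have k3 : q = 3 := (Nat.prime_dvd_prime_iff_eq hq Nat.prime_three).1 k2
    subst k3
    push_cast at g1 g2 k1
    have k4 : ((M : ℤ) - 6) * t = 4 := mul_left_cancel₀ (show (3 : ℤ) ≠ 0 by norm_num) (by linear_combination k1 - 9 * g2)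
    have k5 : t ∣ 4 := by
      have : (t : ℤ) ∣ 4 := ⟨M - 6, by linear_combination -k4⟩
      exact_mod_cast this
    have k6 : t ≤ 4 := Nat.le_of_dvd (by norm_num) k5
    have k7 : (M : ℤ) = 2 * (2 * 2 ^ a) - 1 := by linear_combination g1
    have k8 : t = 4 ∧ M = 7 := by interval_cases t <;> push_cast at k4 <;> omega
    obtain ⟨rfl, rfl⟩ := k8
    have k9 : (2 : ℤ) ^ (a + 1) * 3 ^ (b + 1) = 108 := by
      have e1 : (2 : ℤ) ^ a = 2 := by push_cast at k7; omega
      have e2 : (3 : ℤ) ^ b = 9 := by push_cast at g2; omega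
      rw [pow_succ, pow_succ, e1, e2]; norm_num
    exact_mod_cast k9
  · exfalso
    have hp2 := hp.two_le
    have hqo : q % 2 = 1 := hq.eq_two_or_odd.resolve_left (by omega)
    have b1 := bnd p a 2 hp (by omega)
    have b2 := bnd q b 4 hq (by omega)
    have := Nat.mul_lt_mul'' b1 b2
    nlinarith

theorem result (n : ℕ) (hn : 0 < n) (h : sig n = 2 * usig n) :
    (∃ p, p.Prime ∧ p ≠ 2 ∧ n.factorization p % 4 = 3) ∧
    (∀ p q a b : ℕ, p.Prime → q.Prime → p < q → n = p ^ a * q ^ b → n = 108) := by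
  refine ⟨part1 n hn.ne' h, fun p q a b hp hq hpq hne => ?_⟩
  subst hne
  exact part2 p q a b hp hq hpq h

end Pool.Agent.Results.MP_d0f2af_nt.TwoPrimes
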